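import Pool.Agent.H950.FK.St
import Pool.Graph.R_seed8.H443R3.BT.Conv

/-!
Potentials of the interface in a lattice domain between two graphs.
-/

set_option autoImplicit false

namespace Pool.Agent.H297.FK

open H974 H984P H984N H342P H443B Pool.Agent.H950.FK

variable {D : GD} {F : Finset Edg}

theorem line_inv (D : GD) (F : Finset Edg) (σ : St) :
    σ ∈ line D F ↔ nxt (D.cfg F) σ ∈ line D F := by
  unfold line
  simp only [Set.mem_ofPred_eq]
  constructor
  · rintro ⟨s, t, h⟩
    refine ⟨s, t + 1, ?_⟩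
    rw [orb_succ, ← h, ← orb_succ]
    exact (Function.iterate_succ_apply _ _ _).symm
  · rintro ⟨s, t, h⟩
    refine ⟨s + 1, t, ?_⟩
    rw [← h]
    exact Function.iterate_succ_apply _ _ _

/-- an integer function which is constant along steps above a bound is constant above it -/
theorem const_ge {f : ℤ → ZMod 2} {a : ℤ} (h : ∀ x, a ≤ x → f (x + 1) = f x) :
    ∀ x, a ≤ x → f x = f a := by
  intro x hx
  obtain ⟨n, rfl⟩ : ∃ n : ℕ, x = a + n := ⟨(x - a).toNat, by omega⟩
  clear hx
  induction n with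
  | zero => simp
  | succ n ih =>
    have h1 := h (a + n) (by omega)
    rw [ih] at h1
    rw [← h1]
    push_cast
    ring_nf

theorem const_le {f : ℤ → ZMod 2} {a : ℤ} (h : ∀ x, x + 1 ≤ a → f (x + 1) = f x) :
    ∀ x, x ≤ a → f x = f a := by
  intro x hx
  obtain ⟨n, rfl⟩ : ∃ n : ℕ, x = a - n := ⟨(a - x).toNat, by omega⟩
  clear hx
  induction n with
  | zero => simp
  | succ n ih =>
    have h1 := h (a - n - 1) (by omega)
    rw [sub_add_cancel, ih] at h1
    rw [h1]
    push_cast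
    ring_nf

theorem const_all {f : ℤ → ZMod 2} (h : ∀ x, f (x + 1) = f x) (x y : ℤ) : f x = f y := by
  rcases le_total x y with hxy | hxy
  · exact const_le (fun z _ => h z) x hxy
  · exact const_ge (fun z _ => h z) x hxy

theorem wired_const {hv : Vtx → ZMod 2} (hC : ∀ e ∈ D.cfg F, hv (src e) = hv (tgt e))
    {u v : Vtx} (hu : u ∈ D.W) (hv' : v ∈ D.W) : hv u = hv v := by
  have hrow : ∀ y x, x ≤ D.w y → hv (x, y) = hv (D.w y, y) := by
    intro y
    refine const_le (f := fun x => hv (x, y)) ?_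
    intro x hx
    have h1 := hC (x, y, true) (Or.inr ⟨by
      show x ≤ D.w y
      omega, hx⟩)
    exact h1.symm
  have hcol : ∀ y, hv (D.w (y + 1), y + 1) = hv (D.w y, y) := by
    intro y
    have h1 := hC (min (D.w y) (D.w (y + 1)), y, false) (Or.inr ⟨by
      show min (D.w y) (D.w (y + 1)) ≤ D.w y
      exact min_le_left _ _, by
      show min (D.w y) (D.w (y + 1)) ≤ D.w (y + 1)
      exact min_le_right _ _⟩)
    rw [src_mk, tgt_false] at h1
    rw [← hrow y _ (min_le_left _ (D.w (y + 1))), h1,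
      hrow (y + 1) _ (min_le_right (D.w y) _)]
  have hall := const_all (f := fun y => hv (D.w y, y)) hcol u.2 v.2
  have h1 := hrow u.2 u.1 hu
  have h2 := hrow v.2 v.1 hv'
  rw [show u = (u.1, u.2) from rfl, show v = (v.1, v.2) from rfl, h1, h2]
  exact hall

theorem not_cfg (hF : F ⊆ D.E) {e : Edg} (he : src e ∈ D.Z ∨ tgt e ∈ D.Z) : e ∉ D.cfg F := by
  have hd : ∀ v ∈ D.Z, v ∉ D.W := by
    intro v h1 h2
    have h3 : D.z v.2 ≤ v.1 := h1
    have h4 : v.1 ≤ D.w v.2 := h2
    have := D.lt v.2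
    omega
  rintro (h | h)
  · have h1 := D.mem_E.1 (hF h)
    rcases he with h2 | h2
    · exact h1.1 h2
    · exact h1.2.1 h2
  · rcases he with h2 | h2
    · exact hd _ h2 h.1
    · exact hd _ h2 h.2

theorem free_const (hF : F ⊆ D.E) {hf : Vtx → ZMod 2}
    (hE : ∀ e, e ∉ D.cfg F → hf (dsrc e) = hf (dtgt e)) {f g : Vtx}
    (hf' : ∃ v ∈ D.Z, cor f v) (hg : ∃ v ∈ D.Z, cor g v) : hf f = hf g := by
  have hm : ∀ f : Vtx, (∃ v ∈ D.Z, cor f v) → min (D.z f.2) (D.z (f.2 + 1)) - 1 ≤ f.1 := by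
    rintro ⟨x, y⟩ ⟨⟨a, b⟩, h1, h2, h3⟩
    have h4 : D.z b ≤ a := h1
    dsimp only at h2 h3 ⊢
    rcases h3 with rfl | rfl <;> rcases h2 with rfl | rfl <;> omega
  have hrow : ∀ y x, min (D.z y) (D.z (y + 1)) - 1 ≤ x →
      hf (x, y) = hf (min (D.z y) (D.z (y + 1)) - 1, y) := by
    intro y
    refine const_ge (f := fun x => hf (x, y)) ?_
    intro x hx
    have h1 := hE (x + 1, y, false) (not_cfg hF (by
      show D.z y ≤ x + 1 ∨ D.z (y + 1) ≤ x + 1
      omega))
    rw [dsrc_false, dtgt_mk, add_sub_cancel_right] at h1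
    exact h1.symm
  have hcol : ∀ y, hf (min (D.z (y + 1)) (D.z (y + 1 + 1)) - 1, y + 1) =
      hf (min (D.z y) (D.z (y + 1)) - 1, y) := by
    intro y
    have h1 := hE (D.z (y + 1), y + 1, true) (not_cfg hF (Or.inl (by
      show D.z (y + 1) ≤ D.z (y + 1)
      exact le_rfl)))
    rw [dsrc_true, dtgt_mk, add_sub_cancel_right] at h1
    rw [← hrow y (D.z (y + 1)) (by omega), h1, hrow (y + 1) (D.z (y + 1)) (by omega)]
  have hall := const_all (f := fun y => hf (min (D.z y) (D.z (y + 1)) - 1, y)) hcol f.2 g.2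
  have h1 := hrow f.2 f.1 (hm f hf')
  have h2 := hrow g.2 g.1 (hm g hg)
  rw [show f = (f.1, f.2) from rfl, show g = (g.1, g.2) from rfl, h1, h2]
  exact hall

theorem t_pot : S_pot := by
  intro D F hF
  obtain ⟨hv, hf, hpot, hC, hE⟩ := pot_of_inv (D.cfg F) (line D F) (line_inv D F)
  have two : ∀ z : ZMod 2, z + z = 0 := zmod2_add_self
  have hreach : ∀ u w, Reach (D.cfg F) u w → hv u = hv w := by
    intro u w h
    induction h with
    | refl => rfl
    | tail _ hs ih =>
      obtain ⟨e, he, h | h⟩ := hs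
      · rw [ih, ← h.1, ← h.2]; exact hC e he
      · rw [ih, ← h.1, ← h.2]; exact (hC e he).symm
  have hdreach : ∀ f g, DReach (D.cfg F)ᶜ f g → hf f = hf g := by
    intro f g h
    induction h with
    | refl => rfl
    | tail _ hs ih =>
      obtain ⟨e, he, h | h⟩ := hs
      · rw [ih, ← h.1, ← h.2]; exact hE e he
      · rw [ih, ← h.1, ← h.2]; exact (hE e he).symm
  have hstW : D.start.1 ∈ D.W := by
    show D.w D.hi ≤ D.w D.hi
    exact le_rfl
  have hstZ : ∃ v ∈ D.Z, cor (face D.start) v := by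
    refine ⟨(D.w D.hi + 1, D.hi), ?_, ?_⟩
    · show D.z D.hi ≤ D.w D.hi + 1
      exact (D.top D.hi le_rfl).2.le
    · exact ⟨Or.inr rfl, Or.inl rfl⟩
  have hst : hv D.start.1 + hf (face D.start) = 1 := by
    rw [hpot, b2_of (show D.start ∈ line D F from ⟨0, 0, rfl⟩)]
  refine ⟨fun v => hv v + hv D.start.1, fun f => hf f + hv D.start.1, ?_, ?_, ?_⟩
  · intro σ
    have h1 : hv σ.1 + hv D.start.1 + (hf (face σ) + hv D.start.1) = b2 (σ ∈ line D F) := by
      rw [← hpot σ]
      have := two (hv D.start.1)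
      linear_combination this
    rw [h1]
    constructor
    · intro h
      exact b2_of h
    · intro h
      by_contra hcon
      rw [b2_not_of hcon] at h
      exact absurd h (by decide)
  · rintro v ⟨u, hu, hr⟩
    show hv v + hv D.start.1 = 0
    rw [← hreach u v hr, wired_const hC hu hstW]
    exact two _
  · rintro f ⟨g, hg, hr⟩
    show hf f + hv D.start.1 = 1
    rw [← hdreach g f hr, free_const hF hE hg hstZ, add_comm]
    exact hst

end Pool.Agent.H297.FK
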